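import Pool.Agent.Helper79.KN.Defs

/-!
Stable subspaces of `T ⊗ T`, where `T` is the sum of the eigenspaces `V_x` and of their duals: definitions.
-/

set_option autoImplicit false

open Matrix H77MT Pool.Agent.Helper79.KN

namespace Pool.Agent.Helper61.KG

variable {Γ X T n K K₀ : Type} [Group Γ] [DecidableEq X] [Fintype X] [Fintype n] [DecidableEq n] [Field K] [Field K₀]

/-- The action of `γ` on the summands `(x, true) = V_x` and `(x, false) = Hom (V_x, c)` of `T`. -/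
def act (ρ : Rep Γ X n K) (c : Γ →* Kˣ) (γ : Γ) : X × Bool → Matrix n n K
  | (x, true) => (ρ x γ : Matrix n n K)
  | (x, false) => (c γ : K) • (((ρ x γ)⁻¹ : GL n K) : Matrix n n K)ᵀ

/-- The projection to the part of weight `p` of the summands of `T`; `c` has weight `m`. -/
def wt (R : X → ℤ → Matrix n n K) (m p : ℤ) : X × Bool → Matrix n n K
  | (x, true) => R x p
  | (x, false) => (R x (m - p))ᵀ

/-- The elements of `T ⊗ T`, a matrix for every pair of summands of `T`. -/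
abbrev TT (X n K : Type) : Type := X × Bool → X × Bool → Matrix n n K

/-- A subspace of `T ⊗ T` stable under `Δ`. -/
def IsStable (ρ : Rep Γ X n K) (c : Γ →* Kˣ) (Δ : Subgroup Γ) (V : Submodule K (TT X n K)) : Prop :=
  ∀ γ ∈ Δ, ∀ M ∈ V, (fun s s' => act ρ c γ s * M s s' * (act ρ c γ s')ᵀ : TT X n K) ∈ V

/-- All the weights of the subspace `V` of `T ⊗ T` are at least `ν`. -/
def IsEffective (R : X → ℤ → Matrix n n K) (m ν : ℤ) (V : Submodule K (TT X n K)) : Prop :=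
  ∀ M ∈ V, ∀ s s' p p', p + p' < ν → wt R m p s * M s s' * (wt R m p' s')ᵀ = 0

/-- The linear combinations of the pairings between the summands `V_x` and `Hom (V_x, c)`. -/
def IsPairing (M : TT X n K) : Prop :=
  ∃ z : X × Bool → K, ∀ s s', M s s' = if s' = (s.1, !s.2) then z s • (1 : Matrix n n K) else 0

/-- The generalised Tate conjecture for `T ⊗ T`. -/
def IsGTC (ρ : Rep Γ X n K) (h : T → X → ℤ → ℕ) (m : ℤ) : Prop :=
  ∀ (c : Γ →* Kˣ) (Δ : Subgroup Γ), Δ.FiniteIndex →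
    (∀ M : TT X n K, (∀ γ ∈ Δ, ∀ s s', act ρ c γ s * M s s' * (act ρ c γ s')ᵀ = (c γ : K) • M s s') → IsPairing M) ∧
    ∀ R : T → X → ℤ → Matrix n n K, (∀ t, ∃ S, IsHT ρ (h t) S (R t)) →
      ∀ V : Submodule K (TT X n K), IsStable ρ c Δ V → ∀ ν : ℤ, 0 < ν → (∀ t, IsEffective (R t) m ν V) →
        ∀ M ∈ V, IsPairing M

/-- The numbers of weight `0` and `m` do not vanish simultaneously. -/
def IsWide (h : T → X → ℤ → ℕ) (m : ℤ) : Prop :=
  ∀ (x x' : X) (p p' : ℤ), (p = 0 ∨ p = m) → (p' = 0 ∨ p' = m) →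
    ∃ t, 0 < h t x p ∧ 0 < h t x' p' ∧ (x = x' → p = p' → 1 < h t x p)

/-- **The statement.** -/
def Main : Prop :=
  (∀ (Γ X T n K₀ K : Type) [Group Γ] [Fintype X] [DecidableEq X] [Fintype n] [DecidableEq n] [Field K₀]
    [IsAlgClosed K₀] [CharZero K₀] [Field K] [IsAlgClosed K] [CharZero K] (r : ℕ) [Fact r.Prime]
    (O : ValuationSubring K₀) (j : ZMod r →+* IsLocalRing.ResidueField O) (h : T → X → ℤ → ℕ) (m : ℤ)
    (ρ₀ : Rep Γ X n K₀), 4 < Fintype.card n → Fintype.card n < r → IsSep h → m ≠ 0 → IsWide h m → IsBig ρ₀ O r j →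
    HasHT ρ₀ h → IsGTC ρ₀ h m ∧ ∀ ρ : Rep Γ X n K, HasHT ρ h → IsCompat ρ₀ ρ → IsGTC ρ h m) ∧
  ∀ (m : ℕ) (a : Fin m → ℕ) (r e : ℕ), r.Prime → 0 < e → (∀ k l, k ≠ l → Nat.Coprime (a k) (a l)) → 1 < m →
    ∑ k, (1 / a k : ℚ) < 1 / 2 → (∀ k, a k ≠ 0) → 2 * ∏ k, a k < r →
    IsSep (X := {u : ℕ // 0 < u ∧ 2 * u < r ^ e}) (T := {t : ℕ // Nat.Coprime t r})
      (fun t u q => spec a (r ^ e) (t.1 * u.1 % r ^ e) q) ∧
    IsWide (X := {u : ℕ // 0 < u ∧ 2 * u < r ^ e}) (T := {t : ℕ // Nat.Coprime t r})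
      (fun t u q => spec a (r ^ e) (t.1 * u.1 % r ^ e) q) m

end Pool.Agent.Helper61.KG
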